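import Pool.Agent.H180R3.PO.Stmts
import Pool.Agent.H486R3.TaskPZZ

/-!
# Task HZ of POLEORDER (MP_8e9775_nt): the exact order of the zero of zeta
-/

set_option autoImplicit false

open Complex Filter Topology Set

namespace Pool.Agent.H990R4.PO.HZ

open Pool.Agent.H486R3.PZZ

/-- the invariant of the division process -/
def Inv (γ : ℝ) (v : ℕ) (Y : ℂ → ℂ) : Prop :=
  Differentiable ℂ Y ∧ (∀ s : ℂ, Y ((starRingEnd ℂ) s) = (starRingEnd ℂ) (Y s)) ∧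
    ∀ s : ℂ, Z s = ((s - 1 / 2) ^ 2 + (γ : ℂ) ^ 2) ^ v * Y s

lemma Z_conj (s : ℂ) : Z ((starRingEnd ℂ) s) = (starRingEnd ℂ) (Z s) := by
  by_cases hs : s = 1
  · rw [hs, map_one, Z_one, map_one]
  · have hs' : (starRingEnd ℂ) s ≠ 1 := by
      intro h
      apply hs
      have := congrArg (starRingEnd ℂ) h
      rwa [Complex.conj_conj, map_one] at this
    rw [Z_ne hs, Z_ne hs', riemannZeta_conj, map_mul, map_sub, map_one]

lemma quad (γ : ℝ) (s : ℂ) : (s - (1 / 2 + γ * Complex.I)) * (s - (1 / 2 - γ * Complex.I)) =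
    (s - 1 / 2) ^ 2 + (γ : ℂ) ^ 2 := by
  have : (s - (1 / 2 + γ * Complex.I)) * (s - (1 / 2 - γ * Complex.I)) =
      (s - 1 / 2) ^ 2 - (γ : ℂ) ^ 2 * (Complex.I ^ 2) := by ring
  rw [this, Complex.I_sq]
  ring

lemma conj_rho (γ : ℝ) : (starRingEnd ℂ) (1 / 2 + γ * Complex.I) = 1 / 2 - γ * Complex.I := by
  simp [Complex.ext_iff]

lemma step {γ : ℝ} (hγ : 0 < γ) {v : ℕ} {Y : ℂ → ℂ} (h : Inv γ v Y) (h0 : Y (1 / 2 + γ * Complex.I) = 0) :
    ∃ Y' : ℂ → ℂ, Inv γ (v + 1) Y' := by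
  obtain ⟨hd, hc, hZ⟩ := h
  have h0' : Y (1 / 2 - γ * Complex.I) = 0 := by
    rw [← conj_rho, hc, h0, map_zero]
  obtain ⟨Y1, hY1, hZ1⟩ := factor Y hd _ h0
  have hne : (1 / 2 - γ * Complex.I : ℂ) - (1 / 2 + γ * Complex.I) ≠ 0 := by
    intro h
    have h2 := congrArg Complex.im h
    simp at h2
    linarith
  have hY1ρ : Y1 (1 / 2 - γ * Complex.I) = 0 := by
    have h := hZ1 (1 / 2 - γ * Complex.I)
    rw [h0'] at h
    rcases mul_eq_zero.1 h.symm with h | h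
    · exact absurd h hne
    · exact h
  obtain ⟨Y2, hY2, hZ2⟩ := factor Y1 hY1 _ hY1ρ
  have hfac : ∀ s : ℂ, Y s = ((s - 1 / 2) ^ 2 + (γ : ℂ) ^ 2) * Y2 s := by
    intro s
    rw [hZ1 s, hZ2 s, ← quad, mul_assoc]
  refine ⟨Y2, hY2, ?_, fun s => ?_⟩
  · -- symmetry by density
    have hcl : IsClosed {s : ℂ | Y2 ((starRingEnd ℂ) s) = (starRingEnd ℂ) (Y2 s)} :=
      isClosed_eq (hY2.continuous.comp Complex.continuous_conj)
        (Complex.continuous_conj.comp hY2.continuous)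
    have hdense : Dense (({1 / 2 + γ * Complex.I, 1 / 2 - γ * Complex.I} : Set ℂ)ᶜ) := by
      exact Set.Countable.dense_compl ℂ (Set.toFinite _).countable
    have hsub : (({1 / 2 + γ * Complex.I, 1 / 2 - γ * Complex.I} : Set ℂ)ᶜ) ⊆
        {s : ℂ | Y2 ((starRingEnd ℂ) s) = (starRingEnd ℂ) (Y2 s)} := by
      intro s hs
      simp only [Set.mem_compl_iff, Set.mem_insert_iff, Set.mem_singleton_iff, not_or] at hs
      have hq : (s - 1 / 2) ^ 2 + (γ : ℂ) ^ 2 ≠ 0 := by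
        rw [← quad]
        exact mul_ne_zero (sub_ne_zero.2 hs.1) (sub_ne_zero.2 hs.2)
      have h1 := hc s
      rw [hfac s, hfac ((starRingEnd ℂ) s), map_mul] at h1
      have h2 : (starRingEnd ℂ) ((s - 1 / 2) ^ 2 + (γ : ℂ) ^ 2) =
          ((starRingEnd ℂ) s - 1 / 2) ^ 2 + (γ : ℂ) ^ 2 := by
        have h3 : (starRingEnd ℂ) (1 / 2 : ℂ) = 1 / 2 := by
          have := Complex.conj_ofReal (1 / 2 : ℝ)
          push_cast at this
          exact this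
        rw [map_add, map_pow, map_pow, map_sub, h3, Complex.conj_ofReal]
      rw [h2] at h1
      refine mul_left_cancel₀ ?_ h1
      rw [← h2]
      exact (map_ne_zero _).2 hq
    intro s
    exact (hcl.closure_subset_iff.2 hsub) (hdense s)
  · rw [hZ s, hfac s, pow_succ ((s - 1 / 2) ^ 2 + (γ : ℂ) ^ 2) v, mul_assoc]

lemma order_ne_top (ρ : ℂ) : analyticOrderAt Z ρ ≠ ⊤ := by
  intro h
  rw [analyticOrderAt_eq_top] at h
  have hA : AnalyticOnNhd ℂ Z univ := fun z _ => Z_diff.analyticAt z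
  have h1 := hA.eqOn_of_preconnected_of_eventuallyEq (g := fun _ => (0 : ℂ))
    (fun z _ => analyticAt_const) isPreconnected_univ (mem_univ ρ) h
  have h2 := h1 (mem_univ (1 : ℂ))
  rw [Z_one] at h2
  exact one_ne_zero h2

lemma inv_le {γ : ℝ} {v : ℕ} {Y : ℂ → ℂ} (h : Inv γ v Y) :
    (v : ℕ∞) ≤ analyticOrderAt Z (1 / 2 + γ * Complex.I) := by
  rw [natCast_le_analyticOrderAt (Z_diff.analyticAt _)]
  refine ⟨fun s => (s - (1 / 2 - γ * Complex.I)) ^ v * Y s, ?_, Eventually.of_forall fun s => ?_⟩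
  · have h1 : Differentiable ℂ (fun s : ℂ => (s - (1 / 2 - γ * Complex.I)) ^ v * Y s) :=
      ((differentiable_id.sub_const _).pow v).mul h.1
    exact h1.analyticAt _
  · rw [h.2.2 s, ← quad, mul_pow, smul_eq_mul, mul_assoc]

lemma exists_max {γ : ℝ} (hγ : 0 < γ) :
    ∃ (v : ℕ) (Y : ℂ → ℂ), Inv γ v Y ∧ Y (1 / 2 + γ * Complex.I) ≠ 0 := by
  by_contra hcon
  push Not at hcon
  have hall : ∀ v : ℕ, ∃ Y : ℂ → ℂ, Inv γ v Y := by
    intro v
    induction v with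
    | zero => exact ⟨Z, Z_diff, Z_conj, fun s => by rw [pow_zero, one_mul]⟩
    | succ n ih =>
      obtain ⟨Y, hY⟩ := ih
      exact step hγ hY (hcon n Y hY)
  apply order_ne_top (1 / 2 + γ * Complex.I)
  rw [ENat.eq_top_iff_forall_ge]
  intro v
  obtain ⟨Y, hY⟩ := hall v
  exact inv_le hY

end Pool.Agent.H990R4.PO.HZ

namespace Pool.Agent.H990R4.PO

open Pool.Agent.H486R3.PZZ

theorem taskHZ : Pool.Agent.H180R3.PO.TaskHZ := by
  intro γ hγ hζ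
  have hρ1 : (1 / 2 + γ * Complex.I : ℂ) ≠ 1 := by
    intro h
    have := congrArg Complex.re h
    simp at this
  have hZρ : Z (1 / 2 + γ * Complex.I) = 0 := by rw [Z_ne hρ1, hζ, mul_zero]
  obtain ⟨v, Y, ⟨hY, hYc, hfac⟩, hY0⟩ := HZ.exists_max hγ
  have hv : 1 ≤ v := by
    rcases Nat.eq_zero_or_pos v with h | h
    · subst h
      exfalso
      apply hY0
      have := hfac (1 / 2 + γ * Complex.I)
      rw [hZρ, pow_zero, one_mul] at this
      exact this.symm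
    · exact h
  obtain ⟨C, hC⟩ := Z_growth
  refine ⟨v, Z, Y, hv, Z_diff, hY, fun s hs => Z_ne hs, Z_one, hfac, hY0, ⟨C, hC⟩, ?_⟩
  refine growth_ext hY.continuous (2 + γ + 1) C fun s hs => ?_
  have h1 : 1 ≤ ‖(s - 1 / 2) ^ 2 + (γ : ℂ) ^ 2‖ := by
    have h2 : ‖s‖ - 1 / 2 ≤ ‖s - 1 / 2‖ := by
      have := norm_sub_norm_le s (1 / 2)
      have h3 : ‖(1 / 2 : ℂ)‖ = 1 / 2 := by norm_num
      rw [h3] at this
      exact this
    have h4 : γ + 2 ≤ ‖s - 1 / 2‖ := by linarith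
    have h5 : ‖(s - 1 / 2) ^ 2‖ - ‖(γ : ℂ) ^ 2‖ ≤ ‖(s - 1 / 2) ^ 2 + (γ : ℂ) ^ 2‖ := by
      have := norm_sub_le_norm_add ((s - 1 / 2) ^ 2) ((γ : ℂ) ^ 2)
      exact this
    rw [norm_pow, norm_pow, Complex.norm_real, Real.norm_of_nonneg hγ.le] at h5
    nlinarith
  have h1' : 1 ≤ ‖((s - 1 / 2) ^ 2 + (γ : ℂ) ^ 2) ^ v‖ := by
    rw [norm_pow]
    exact one_le_pow₀ h1
  have h2 := hC s
  rw [hfac s, norm_mul] at h2
  have h3 := norm_nonneg (Y s)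
  calc ‖Y s‖ = 1 * ‖Y s‖ := (one_mul _).symm
    _ ≤ ‖((s - 1 / 2) ^ 2 + (γ : ℂ) ^ 2) ^ v‖ * ‖Y s‖ := mul_le_mul_of_nonneg_right h1' h3
    _ ≤ _ := h2

end Pool.Agent.H990R4.PO
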