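import Mathlib
import Pool.Agent.H180R3.PO.Stmts

/-!
# POLEORDER, task T2: preliminaries on the oscillatory integral for `κ = e = 0`
-/

set_option autoImplicit false

open Filter Topology MeasureTheory Set

namespace Pool.Agent.H990R4.PO

open Pool.Agent.H180R3.PO

/-- the integral for `κ = e = 0` -/
noncomputable def J0 (A T δ b : ℝ) : ℂ := ∫ t in Ioi T, ((Real.exp (-(δ * t)) : ℝ) : ℂ) *
  Complex.exp (Complex.I * ((b * t - A * Real.log t : ℝ) : ℂ))

theorem JJ_one (x A T δ b : ℝ) : JJ ((1 : ℝ) - 1) (((1 : ℝ) - 1) * x) A T δ b = J0 A T δ b := by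
  unfold JJ J0
  simp only [sub_self, zero_mul, Real.rpow_zero, one_mul, sub_zero]

/-- the limit function -/
noncomputable def ff (A ξ u : ℝ) : ℂ := ((Real.exp (-u) : ℝ) : ℂ) *
  Complex.exp (Complex.I * ((ξ * u - A * Real.log u : ℝ) : ℂ))

noncomputable def HH (A ξ : ℝ) : ℂ := ∫ u in Ioi (0 : ℝ), ff A ξ u

theorem norm_expI (x : ℝ) : ‖Complex.exp (Complex.I * (x : ℂ))‖ = 1 := by
  rw [mul_comm]
  exact Complex.norm_exp_ofReal_mul_I x

theorem norm_ff (A ξ u : ℝ) : ‖ff A ξ u‖ = Real.exp (-u) := by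
  unfold ff
  rw [norm_mul, norm_expI, mul_one, Complex.norm_real, Real.norm_eq_abs, Real.abs_exp]

theorem meas_ff (A ξ : ℝ) : Measurable (ff A ξ) := by
  unfold ff
  fun_prop

theorem int_ff (A ξ a : ℝ) : IntegrableOn (ff A ξ) (Ioi a) := by
  have h := exp_neg_integrableOn_Ioi a (b := 1) one_pos
  refine Integrable.mono' h (meas_ff A ξ).aestronglyMeasurable ?_
  refine Eventually.of_forall fun u => ?_
  rw [norm_ff]
  simp

theorem J0_le {A T δ b : ℝ} (hδ : 0 < δ) (hT : 0 ≤ T) : ‖J0 A T δ b‖ ≤ 1 / δ := by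
  have h1 : ‖J0 A T δ b‖ ≤ ∫ t in Ioi T, Real.exp (-δ * t) := by
    unfold J0
    refine (norm_integral_le_integral_norm _).trans (le_of_eq ?_)
    congr 1
    funext t
    rw [norm_mul, norm_expI, mul_one, Complex.norm_real, Real.norm_eq_abs, Real.abs_exp]
    congr 1
    ring
  refine h1.trans ?_
  rw [integral_exp_mul_Ioi (by linarith : -δ < 0) T]
  rw [neg_div_neg_eq]
  apply div_le_div_of_nonneg_right _ hδ.le
  rw [Real.exp_le_one_iff]
  have := mul_nonneg hδ.le hT
  linarith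

/-- change of variable -/
theorem J0_eq {A T δ b : ℝ} (hδ : 0 < δ) (hT : 0 ≤ T) :
    ‖(δ : ℂ) * J0 A T δ b - Complex.exp (Complex.I * ((A * Real.log δ : ℝ) : ℂ)) * HH A (b / δ)‖
      ≤ δ * T := by
  set E : ℂ := Complex.exp (Complex.I * ((A * Real.log δ : ℝ) : ℂ)) with hE
  have hcv := integral_comp_mul_left_Ioi (fun u => E * ff A (b / δ) u) T hδ
  have h1 : J0 A T δ b = ∫ t in Ioi T, E * ff A (b / δ) (δ * t) := by
    unfold J0
    refine setIntegral_congr_fun measurableSet_Ioi ?_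
    intro t ht
    have ht0 : 0 < t := lt_of_le_of_lt hT ht
    simp only [ff, hE]
    rw [mul_left_comm, ← Complex.exp_add]
    congr 2
    rw [← mul_add, ← Complex.ofReal_add]
    congr 2
    rw [Real.log_mul hδ.ne' ht0.ne']
    field_simp
    ring
  have h2 : (δ : ℂ) * J0 A T δ b = ∫ u in Ioi (δ * T), E * ff A (b / δ) u := by
    rw [h1, hcv, Complex.real_smul, Complex.ofReal_inv, mul_inv_cancel_left₀]
    exact_mod_cast hδ.ne'
  have hδT : 0 ≤ δ * T := mul_nonneg hδ.le hT
  have h3 : ∫ u in Ioi (0 : ℝ), ff A (b / δ) u =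
      (∫ u in Ioc 0 (δ * T), ff A (b / δ) u) + ∫ u in Ioi (δ * T), ff A (b / δ) u := by
    rw [← setIntegral_union (Ioc_disjoint_Ioi le_rfl) measurableSet_Ioi
      ((int_ff A _ 0).mono_set Ioc_subset_Ioi_self) (int_ff A _ _), Ioc_union_Ioi_eq_Ioi hδT]
  have h4 : (δ : ℂ) * J0 A T δ b - E * HH A (b / δ) = -(E * ∫ u in Ioc 0 (δ * T), ff A (b / δ) u) := by
    rw [h2, HH, h3, integral_const_mul]
    ring
  rw [h4, norm_neg, norm_mul, hE, norm_expI, one_mul]
  have h5 := norm_setIntegral_le_of_norm_le_const (μ := volume) (s := Ioc 0 (δ * T)) (C := 1)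
    (f := ff A (b / δ)) (by simp) (by
      intro u hu
      rw [norm_ff, Real.exp_le_one_iff]
      linarith [hu.1])
  refine h5.trans ?_
  simp [Measure.real, hδT]

/-- Riemann-Lebesgue -/
theorem HH_tendsto_zero (A : ℝ) : Tendsto (HH A) (cocompact ℝ) (𝓝 0) := by
  have h := Real.tendsto_integral_exp_smul_cocompact ((Ioi (0 : ℝ)).indicator (ff A 0))
  have hc : Tendsto (fun ξ : ℝ => -(2 * Real.pi)⁻¹ * ξ) (cocompact ℝ) (cocompact ℝ) := by
    have : (-(2 * Real.pi)⁻¹ : ℝ) ≠ 0 := by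
      have := Real.pi_pos
      simp [this.ne']
    exact (Homeomorph.mulLeft₀ _ this).isClosedEmbedding.tendsto_cocompact
  refine (h.comp hc).congr fun ξ => ?_
  simp only [Function.comp]
  unfold HH
  rw [← integral_indicator measurableSet_Ioi]
  congr 1
  funext u
  by_cases hu : u ∈ Ioi (0 : ℝ)
  · rw [indicator_of_mem hu, indicator_of_mem hu, Circle.smul_def, Real.fourierChar_apply]
    unfold ff
    rw [smul_eq_mul, mul_left_comm, ← Complex.exp_add]
    congr 2
    push_cast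
    have hpi : (Real.pi : ℂ) ≠ 0 := by exact_mod_cast Real.pi_pos.ne'
    field_simp
    ring
  · rw [indicator_of_notMem hu, indicator_of_notMem hu, smul_zero]

theorem HH_continuous (A : ℝ) : Continuous (HH A) := by
  unfold HH
  refine continuous_of_dominated (bound := fun u => Real.exp (-u)) ?_ ?_ ?_ ?_
  · intro ξ
    exact (meas_ff A ξ).aestronglyMeasurable
  · intro ξ
    exact Eventually.of_forall fun u => (norm_ff A ξ u).le
  · have h := exp_neg_integrableOn_Ioi 0 (b := 1) one_pos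
    simp only [neg_mul, one_mul] at h
    exact h
  · refine Eventually.of_forall fun u => ?_
    unfold ff
    fun_prop

end Pool.Agent.H990R4.PO
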