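import Mathlib
import Pool.Agent.H990R4.PO.T2a

/-!
# POLEORDER, task T2: the limit of the series of oscillatory integrals
-/

set_option autoImplicit false

open Filter Topology MeasureTheory Set

namespace Pool.Agent.H990R4.PO

open Pool.Agent.H180R3.PO Pool.Agent.H336R4.PF

theorem arctan_pos' {y δ : ℝ} (hy : 0 < y) (hδ : 0 < δ) : 0 < Real.arctan (δ / y) := by
  rw [← Real.arctan_zero]
  exact Real.arctan_strictMono (div_pos hδ hy)

theorem tendsto_ratio {y : ℝ} (hy : 0 < y) :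
    Tendsto (fun δ : ℝ => δ / Real.arctan (δ / y)) (𝓝[>] 0) (𝓝 y) := by
  have h1 : HasDerivAt Real.arctan 1 0 := by
    have := Real.hasDerivAt_arctan 0
    simpa using this
  have h2 : Tendsto (fun x : ℝ => x⁻¹ * Real.arctan x) (𝓝[≠] 0) (𝓝 1) := by
    have := h1.tendsto_slope
    refine this.congr' ?_
    refine Eventually.of_forall fun x => ?_
    simp [slope]
  have h3 : Tendsto (fun δ : ℝ => δ / y) (𝓝[>] 0) (𝓝[≠] 0) := by
    rw [tendsto_nhdsWithin_iff]
    constructor
    · have : Tendsto (fun δ : ℝ => δ / y) (𝓝 0) (𝓝 (0 / y)) := by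
        apply Continuous.tendsto
        fun_prop
      rw [zero_div] at this
      exact this.mono_left nhdsWithin_le_nhds
    · filter_upwards [self_mem_nhdsWithin] with δ hδ
      exact (div_pos hδ hy).ne'
  have h4 := (h2.comp h3).inv₀ one_ne_zero
  have h5 := h4.const_mul y
  rw [inv_one, mul_one] at h5
  refine h5.congr' ?_
  filter_upwards [self_mem_nhdsWithin] with δ hδ
  have hδ0 : (0 : ℝ) < δ := hδ
  have h6 := arctan_pos' hy hδ0
  simp only [Function.comp]
  field_simp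

theorem tendsto_arctan {y : ℝ} : Tendsto (fun δ : ℝ => Real.arctan (δ / y)) (𝓝[>] 0) (𝓝 0) := by
  have : Tendsto (fun δ : ℝ => Real.arctan (δ / y)) (𝓝 0) (𝓝 (Real.arctan (0 / y))) := by
    apply Continuous.tendsto
    fun_prop
  rw [zero_div, Real.arctan_zero] at this
  exact this.mono_left nhdsWithin_le_nhds

/-- the argument of the frequency -/
noncomputable def bb (c y : ℝ) (n : ℕ) (δ : ℝ) : ℝ :=
  c + Real.log n - Real.log ‖((δ : ℂ) + y * Complex.I)‖

theorem norm_dy (y δ : ℝ) : ‖((δ : ℂ) + y * Complex.I)‖ = Real.sqrt (δ ^ 2 + y ^ 2) := by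
  rw [Complex.norm_add_mul_I]

theorem tendsto_bb {c y : ℝ} (hy : 0 < y) (n : ℕ) :
    Tendsto (bb c y n) (𝓝[>] 0) (𝓝 (c + Real.log n - Real.log y)) := by
  have h1 : Tendsto (fun δ : ℝ => ‖((δ : ℂ) + y * Complex.I)‖) (𝓝 0)
      (𝓝 ‖(((0 : ℝ) : ℂ) + y * Complex.I)‖) := by
    apply Continuous.tendsto
    fun_prop
  have h2 : ‖(((0 : ℝ) : ℂ) + y * Complex.I)‖ = y := by
    rw [norm_dy]
    simp [Real.sqrt_sq hy.le]
  rw [h2] at h1
  have h3 := (Real.continuousAt_log hy.ne').tendsto.comp h1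
  exact (h3.const_sub (c + Real.log n)).mono_left nhdsWithin_le_nhds

theorem HH_lim (A : ℝ) {c y : ℝ} (hy : 0 < y) (n : ℕ) :
    Tendsto (fun δ : ℝ => HH A (bb c y n δ / Real.arctan (δ / y))) (𝓝[>] 0)
      (𝓝 (if c + Real.log n - Real.log y = 0 then HH A 0 else 0)) := by
  split_ifs with h0
  · apply ((HH_continuous A).tendsto 0).comp
    have h1 : ∀ δ : ℝ, 0 < δ → |bb c y n δ / Real.arctan (δ / y)| ≤
        (δ / Real.arctan (δ / y)) * (δ / (2 * y ^ 2)) := by
      intro δ hδ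
      have ha := arctan_pos' hy hδ
      have hb : bb c y n δ = -(1 / 2) * Real.log (1 + δ ^ 2 / y ^ 2) := by
        have : bb c y n δ = Real.log y - Real.log ‖((δ : ℂ) + y * Complex.I)‖ := by
          unfold bb
          linarith
        rw [this, norm_dy, Real.log_sqrt (by positivity)]
        have e1 : δ ^ 2 + y ^ 2 = y ^ 2 * (1 + δ ^ 2 / y ^ 2) := by
          field_simp
          ring
        rw [e1, Real.log_mul (by positivity) (by positivity), Real.log_pow]
        push_cast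
        ring
      have hlog0 : 0 ≤ Real.log (1 + δ ^ 2 / y ^ 2) := Real.log_nonneg (by
        have : 0 ≤ δ ^ 2 / y ^ 2 := by positivity
        linarith)
      have hlog1 : Real.log (1 + δ ^ 2 / y ^ 2) ≤ δ ^ 2 / y ^ 2 := by
        have := Real.log_le_sub_one_of_pos (x := 1 + δ ^ 2 / y ^ 2) (by positivity)
        linarith
      rw [abs_div, abs_of_pos ha, hb, abs_mul, abs_of_nonneg hlog0]
      have e2 : |(-(1 / 2) : ℝ)| = 1 / 2 := by norm_num
      rw [e2, div_mul_div_comm, div_le_div_iff₀ ha (by positivity)]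
      have e3 : 1 / 2 * Real.log (1 + δ ^ 2 / y ^ 2) * (Real.arctan (δ / y) * (2 * y ^ 2)) =
          (Real.log (1 + δ ^ 2 / y ^ 2) * y ^ 2) * Real.arctan (δ / y) := by ring
      rw [e3]
      have e4 : Real.log (1 + δ ^ 2 / y ^ 2) * y ^ 2 ≤ δ * δ := by
        calc Real.log (1 + δ ^ 2 / y ^ 2) * y ^ 2 ≤ δ ^ 2 / y ^ 2 * y ^ 2 :=
              mul_le_mul_of_nonneg_right hlog1 (by positivity)
          _ = δ * δ := by field_simp
      exact mul_le_mul_of_nonneg_right e4 ha.le
    have h2 : Tendsto (fun δ : ℝ => (δ / Real.arctan (δ / y)) * (δ / (2 * y ^ 2))) (𝓝[>] 0)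
        (𝓝 0) := by
      have h3 : Tendsto (fun δ : ℝ => δ / (2 * y ^ 2)) (𝓝[>] 0) (𝓝 (0 / (2 * y ^ 2))) := by
        refine Tendsto.mono_left ?_ nhdsWithin_le_nhds
        apply Continuous.tendsto
        fun_prop
      have := (tendsto_ratio hy).mul h3
      simpa using this
    refine squeeze_zero_norm' ?_ h2
    filter_upwards [self_mem_nhdsWithin] with δ hδ
    exact h1 δ hδ
  · apply (HH_tendsto_zero A).comp
    rw [← Metric.cobounded_eq_cocompact, ← tendsto_norm_atTop_iff_cobounded]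
    have h1 : Tendsto (fun δ : ℝ => (Real.arctan (δ / y))⁻¹) (𝓝[>] 0) atTop := by
      apply tendsto_inv_nhdsGT_zero.comp
      rw [tendsto_nhdsWithin_iff]
      refine ⟨tendsto_arctan, ?_⟩
      filter_upwards [self_mem_nhdsWithin] with δ hδ
      exact arctan_pos' hy hδ
    have h2 := (tendsto_bb (c := c) hy n).norm
    have h3 := h2.pos_mul_atTop (norm_pos_iff.2 h0) h1
    refine h3.congr' ?_
    filter_upwards [self_mem_nhdsWithin] with δ hδ
    rw [norm_div, Real.norm_eq_abs (Real.arctan (δ / y)), abs_of_pos (arctan_pos' hy hδ)]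
    exact (div_eq_mul_inv _ _).symm

/-- the term of the series, normalised -/
noncomputable def phi (A T c y : ℝ) (n : ℕ) (δ : ℝ) : ℂ :=
  Complex.exp (-(Complex.I * ((A * Real.log δ : ℝ) : ℂ))) * (δ : ℂ) *
    J0 A T (Real.arctan (δ / y)) (bb c y n δ)

/-- the limit of the terms -/
noncomputable def Pn (A c y : ℝ) (n : ℕ) : ℂ :=
  (y : ℂ) * Complex.exp (-(Complex.I * ((A * Real.log y : ℝ) : ℂ))) *
    (if c + Real.log n - Real.log y = 0 then HH A 0 else 0)

theorem norm_expNI (x : ℝ) : ‖Complex.exp (-(Complex.I * (x : ℂ)))‖ = 1 := by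
  have : -(Complex.I * (x : ℂ)) = Complex.I * ((-x : ℝ) : ℂ) := by
    push_cast
    ring
  rw [this, norm_expI]

theorem phi_le {A T c y : ℝ} (hy : 0 < y) (hT : 0 ≤ T) (n : ℕ) {δ : ℝ} (hδ : 0 < δ) :
    ‖phi A T c y n δ‖ ≤ δ / Real.arctan (δ / y) := by
  unfold phi
  rw [norm_mul, norm_mul, norm_expNI, one_mul, Complex.norm_real, Real.norm_eq_abs, abs_of_pos hδ]
  have := J0_le (A := A) (b := bb c y n δ) (arctan_pos' hy hδ) hT
  calc δ * ‖J0 A T (Real.arctan (δ / y)) (bb c y n δ)‖ ≤ δ * (1 / Real.arctan (δ / y)) :=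
        mul_le_mul_of_nonneg_left this hδ.le
    _ = δ / Real.arctan (δ / y) := by ring

theorem phi_tendsto {A T c y : ℝ} (hy : 0 < y) (hT : 0 ≤ T) (n : ℕ) :
    Tendsto (phi A T c y n) (𝓝[>] 0) (𝓝 (Pn A c y n)) := by
  -- the main part
  set mm : ℝ → ℂ := fun δ => ((δ / Real.arctan (δ / y) : ℝ) : ℂ) *
    Complex.exp (-(Complex.I * ((A * Real.log (δ / Real.arctan (δ / y)) : ℝ) : ℂ))) *
      HH A (bb c y n δ / Real.arctan (δ / y)) with hmm
  have h1 : Tendsto mm (𝓝[>] 0) (𝓝 (Pn A c y n)) := by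
    refine Tendsto.mul (Tendsto.mul ?_ ?_) (HH_lim A hy n)
    · exact (Complex.continuous_ofReal.tendsto y).comp (tendsto_ratio hy)
    · have h2 : ContinuousAt (fun x : ℝ => Complex.exp (-(Complex.I * ((A * Real.log x : ℝ) : ℂ)))) y := by
        have h3 := Real.continuousAt_log hy.ne'
        fun_prop
      exact h2.tendsto.comp (tendsto_ratio hy)
  have h2 : Tendsto (fun δ => phi A T c y n δ - mm δ) (𝓝[>] 0) (𝓝 0) := by
    have h3 : Tendsto (fun δ : ℝ => δ * T) (𝓝[>] 0) (𝓝 (0 * T)) := by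
      refine Tendsto.mono_left ?_ nhdsWithin_le_nhds
      apply Continuous.tendsto
      fun_prop
    rw [zero_mul] at h3
    refine squeeze_zero_norm' ?_ h3
    filter_upwards [self_mem_nhdsWithin] with δ hδ0
    have hδ : 0 < δ := hδ0
    have ha := arctan_pos' hy hδ
    set α := Real.arctan (δ / y) with hα
    have h4 := J0_eq (A := A) (b := bb c y n δ) ha hT
    have hαC : (α : ℂ) ≠ 0 := by exact_mod_cast ha.ne'
    have h5 : phi A T c y n δ - mm δ = ((δ / α : ℝ) : ℂ) *
        Complex.exp (-(Complex.I * ((A * Real.log δ : ℝ) : ℂ))) *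
        ((α : ℂ) * J0 A T α (bb c y n δ) - Complex.exp (Complex.I * ((A * Real.log α : ℝ) : ℂ)) *
          HH A (bb c y n δ / α)) := by
      have e1 : Complex.exp (-(Complex.I * ((A * Real.log (δ / α) : ℝ) : ℂ))) =
          Complex.exp (-(Complex.I * ((A * Real.log δ : ℝ) : ℂ))) *
            Complex.exp (Complex.I * ((A * Real.log α : ℝ) : ℂ)) := by
        rw [← Complex.exp_add, Real.log_div hδ.ne' ha.ne']
        congr 1
        push_cast
        ring
      simp only [hmm, phi, ← hα]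
      rw [e1]
      push_cast
      field_simp
    rw [h5, norm_mul, norm_mul, norm_expNI, mul_one, Complex.norm_real, Real.norm_eq_abs,
      abs_of_pos (div_pos hδ ha)]
    calc δ / α * ‖_‖ ≤ δ / α * (α * T) := mul_le_mul_of_nonneg_left h4 (div_pos hδ ha).le
      _ = δ * T := by field_simp
  have h6 := h2.add h1
  rw [zero_add] at h6
  refine h6.congr fun δ => ?_
  ring

/-- the normalised limit of the series -/
noncomputable def MM (a : ℕ → ℂ) (η c A y : ℝ) : ℂ := ∑' n : ℕ, (starRingEnd ℂ) (a n) *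
  (((n : ℝ) ^ (-1 - η) : ℝ) : ℂ) * Pn A c y n

theorem SJ_tendsto {a : ℕ → ℂ} (hr : Ram a) {η c A T y : ℝ} (hη : 0 < η) (hT : 0 ≤ T)
    (hy : 0 < y) :
    Tendsto (fun δ : ℝ => Complex.exp (-(Complex.I * ((A * Real.log δ : ℝ) : ℂ))) * (δ : ℂ) *
      SJ a 1 η c A T y δ) (𝓝[>] 0) (𝓝 (MM a η c A y)) := by
  have h1 : ∀ δ : ℝ, Complex.exp (-(Complex.I * ((A * Real.log δ : ℝ) : ℂ))) * (δ : ℂ) *
      SJ a 1 η c A T y δ = ∑' n : ℕ, (starRingEnd ℂ) (a n) *
        (((n : ℝ) ^ (-1 - η) : ℝ) : ℂ) * phi A T c y n δ := by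
    intro δ
    unfold SJ
    rw [← tsum_mul_left]
    congr 1
    funext n
    rw [JJ_one]
    unfold phi bb
    ring
  simp_rw [h1]
  obtain ⟨C, hC⟩ := hr (η / 2) (by linarith)
  have hsum : Summable fun n : ℕ => |C| * (2 * y) * (n : ℝ) ^ (-1 - η / 2) := by
    apply Summable.mul_left
    apply Real.summable_nat_rpow.2
    linarith
  refine tendsto_tsum_of_dominated_convergence hsum ?_ ?_
  · intro n
    exact (phi_tendsto hy hT n).const_mul _
  · have h2 : ∀ᶠ δ : ℝ in 𝓝[>] 0, δ / Real.arctan (δ / y) < 2 * y :=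
      (tendsto_ratio hy).eventually_lt_const (by linarith)
    filter_upwards [self_mem_nhdsWithin, h2] with δ hδ hδ2 n
    rw [norm_mul, norm_mul, RCLike.norm_conj, Complex.norm_real, Real.norm_eq_abs]
    rcases Nat.eq_zero_or_pos n with h0 | h0
    · subst h0
      have e1 : (((0 : ℕ) : ℝ)) ^ (-1 - η) = 0 := by
        rw [Nat.cast_zero, Real.zero_rpow]
        linarith
      rw [e1, abs_zero, mul_zero, zero_mul]
      positivity
    · have hn : (0 : ℝ) < n := by exact_mod_cast h0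
      rw [abs_of_pos (Real.rpow_pos_of_pos hn _)]
      have h3 : ‖a n‖ * (n : ℝ) ^ (-1 - η) ≤ |C| * (n : ℝ) ^ (-1 - η / 2) := by
        calc ‖a n‖ * (n : ℝ) ^ (-1 - η) ≤ (|C| * (n : ℝ) ^ (η / 2)) * (n : ℝ) ^ (-1 - η) := by
              apply mul_le_mul_of_nonneg_right _ (Real.rpow_nonneg hn.le _)
              exact (hC n h0).trans (mul_le_mul_of_nonneg_right (le_abs_self C)
                (Real.rpow_nonneg hn.le _))
          _ = |C| * (n : ℝ) ^ (-1 - η / 2) := by
              rw [mul_assoc, ← Real.rpow_add hn]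
              congr 2
              ring
      calc ‖a n‖ * (n : ℝ) ^ (-1 - η) * ‖phi A T c y n δ‖
          ≤ (|C| * (n : ℝ) ^ (-1 - η / 2)) * (2 * y) := by
            apply mul_le_mul h3 ((phi_le hy hT n hδ).trans hδ2.le) (norm_nonneg _)
            exact mul_nonneg (abs_nonneg _) (Real.rpow_nonneg hn.le _)
        _ = |C| * (2 * y) * (n : ℝ) ^ (-1 - η / 2) := by ring

end Pool.Agent.H990R4.PO
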