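import Mathlib
import Pool.Agent.H990R4.PO.T2b

/-!
# POLEORDER, task T2: degree one with a pole at `1` forces periodic coefficients
-/

set_option autoImplicit false

open Filter Topology MeasureTheory Set

namespace Pool.Agent.H990R4.PO

open Pool.Agent.H180R3.PO Pool.Agent.H336R4.PF

/-- the limit of `δ ^ (1 - i A) f(δ + i y)` -/
noncomputable def LL (a : ℕ → ℂ) (η : ℝ) (K : ℂ) (c A y : ℝ) : ℂ :=
  (K / (2 * Real.pi)) * ((y ^ η : ℝ) : ℂ) * Complex.exp (Complex.I * ((η * (Real.pi / 2) : ℝ) : ℂ)) *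
    MM a η c A y

theorem main_lim {a : ℕ → ℂ} (hr : Ram a) {η : ℝ} {K : ℂ} {c A T y : ℝ} (hη : 0 < η) (hT : 0 ≤ T)
    (hy : 0 < y)
    (hL : Tendsto (fun δ : ℝ => (δ : ℂ) * fz a (δ + y * Complex.I) -
      (δ : ℂ) * (K / (2 * Real.pi)) * ((‖((δ : ℂ) + y * Complex.I)‖ ^ η : ℝ) : ℂ) *
      Complex.exp (Complex.I * ((η * (Real.pi / 2 - Real.arctan (δ / y)) : ℝ) : ℂ)) *
        SJ a 1 η c A T y δ) (𝓝[>] 0) (𝓝 0)) :
    Tendsto (fun δ : ℝ => Complex.exp (-(Complex.I * ((A * Real.log δ : ℝ) : ℂ))) *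
      ((δ : ℂ) * fz a (δ + y * Complex.I))) (𝓝[>] 0) (𝓝 (LL a η K c A y)) := by
  set e : ℝ → ℂ := fun δ => Complex.exp (-(Complex.I * ((A * Real.log δ : ℝ) : ℂ))) with he
  set Y : ℝ → ℂ := fun δ => (K / (2 * Real.pi)) * ((‖((δ : ℂ) + y * Complex.I)‖ ^ η : ℝ) : ℂ) *
      Complex.exp (Complex.I * ((η * (Real.pi / 2 - Real.arctan (δ / y)) : ℝ) : ℂ)) with hY
  have h1 : Tendsto (fun δ : ℝ => e δ * ((δ : ℂ) * fz a (δ + y * Complex.I) -
      (δ : ℂ) * Y δ * SJ a 1 η c A T y δ)) (𝓝[>] 0) (𝓝 0) := by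
    have h2 : Tendsto (fun δ : ℝ => (δ : ℂ) * fz a (δ + y * Complex.I) -
      (δ : ℂ) * Y δ * SJ a 1 η c A T y δ) (𝓝[>] 0) (𝓝 0) := by
      refine hL.congr fun δ => ?_
      simp only [hY]
      ring
    have h3 := h2.norm
    rw [norm_zero] at h3
    refine squeeze_zero_norm' ?_ h3
    refine Eventually.of_forall fun δ => ?_
    rw [norm_mul]
    simp only [he]
    rw [norm_expNI, one_mul]
  have hYl : Tendsto Y (𝓝[>] 0) (𝓝 ((K / (2 * Real.pi)) * ((y ^ η : ℝ) : ℂ) *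
      Complex.exp (Complex.I * ((η * (Real.pi / 2) : ℝ) : ℂ)))) := by
    have h4 : Tendsto Y (𝓝 0) (𝓝 (Y 0)) := by
      apply ContinuousAt.tendsto
      simp only [hY]
      refine ContinuousAt.mul (ContinuousAt.mul continuousAt_const ?_) ?_
      · refine Complex.continuous_ofReal.continuousAt.comp ?_
        refine ContinuousAt.rpow_const ?_ (Or.inl ?_)
        · fun_prop
        · rw [norm_dy]
          have : 0 < (0 : ℝ) ^ 2 + y ^ 2 := by positivity
          exact (Real.sqrt_pos.2 this).ne'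
      · fun_prop
    have h5 : Y 0 = (K / (2 * Real.pi)) * ((y ^ η : ℝ) : ℂ) *
      Complex.exp (Complex.I * ((η * (Real.pi / 2) : ℝ) : ℂ)) := by
      simp only [hY]
      rw [norm_dy]
      have : Real.sqrt ((0 : ℝ) ^ 2 + y ^ 2) = y := by
        simp [Real.sqrt_sq hy.le]
      rw [this, zero_div, Real.arctan_zero, sub_zero]
    rw [← h5]
    exact h4.mono_left nhdsWithin_le_nhds
  have h6 := hYl.mul (SJ_tendsto (c := c) (A := A) hr hη hT hy)
  have h7 := h1.add h6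
  rw [zero_add] at h7
  refine h7.congr fun δ => ?_
  simp only [he]
  ring

theorem fz_period (a : ℕ → ℂ) (z : ℂ) : fz a (z + 2 * Real.pi * Complex.I) = fz a z := by
  unfold fz
  congr 1
  funext n
  congr 1
  have e1 : -((n : ℂ) * (z + 2 * Real.pi * Complex.I)) =
      -((n : ℂ) * z) + ((-(n : ℤ) : ℤ) : ℂ) * (2 * Real.pi * Complex.I) := by
    push_cast
    ring
  rw [e1, Complex.exp_add, Complex.exp_int_mul_two_pi_mul_I, mul_one]

theorem pole_lim {a : ℕ → ℂ} {G : ℂ → ℂ} {η : ℝ} (hη : 0 < η)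
    (hMB : ∀ z : ℂ, 0 < z.re →
      MeasureTheory.Integrable (fun t : ℝ => G (-η + t * Complex.I) / (-η + t * Complex.I - 1) *
        Complex.Gamma (-η + t * Complex.I) * Complex.exp (-(-η + t * Complex.I) * Complex.log z)) ∧
      fz a z = G 1 / z - G 0 + (1 / (2 * Real.pi) : ℂ) *
        ∫ t : ℝ, G (-η + t * Complex.I) / (-η + t * Complex.I - 1) *
          Complex.Gamma (-η + t * Complex.I) * Complex.exp (-(-η + t * Complex.I) * Complex.log z)) :
    Tendsto (fun δ : ℝ => (δ : ℂ) * fz a δ) (𝓝[>] 0) (𝓝 (G 1)) := by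
  set F : ℝ → ℂ := fun t => G (-η + t * Complex.I) / (-η + t * Complex.I - 1) *
        Complex.Gamma (-η + t * Complex.I) with hF
  have hFi : Integrable F := by
    have := (hMB 1 (by simp)).1
    simp only [Complex.log_one, mul_zero, Complex.exp_zero, mul_one] at this
    exact this
  set I0 : ℝ := ∫ t, ‖F t‖ with hI0
  set R : ℝ → ℂ := fun δ => -(δ : ℂ) * G 0 + (δ : ℂ) * ((1 / (2 * Real.pi) : ℂ) *
        ∫ t : ℝ, F t * Complex.exp (-(-η + t * Complex.I) * Complex.log (δ : ℂ))) with hR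
  have h1 : ∀ δ : ℝ, 0 < δ → (δ : ℂ) * fz a δ = G 1 + R δ := by
    intro δ hδ
    have hδ' : (δ : ℂ) ≠ 0 := by exact_mod_cast hδ.ne'
    rw [(hMB (δ : ℂ) (by simpa using hδ)).2]
    simp only [hR, hF]
    rw [mul_add, mul_sub, mul_div_cancel₀ _ hδ']
    ring
  have h2 : Tendsto R (𝓝[>] 0) (𝓝 0) := by
    have h3 : Tendsto (fun δ : ℝ => δ * (‖G 0‖ + 1 / (2 * Real.pi) * I0)) (𝓝[>] 0) (𝓝 0) := by
      have : Tendsto (fun δ : ℝ => δ * (‖G 0‖ + 1 / (2 * Real.pi) * I0)) (𝓝 0)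
          (𝓝 (0 * (‖G 0‖ + 1 / (2 * Real.pi) * I0))) := by
        apply Continuous.tendsto
        fun_prop
      rw [zero_mul] at this
      exact this.mono_left nhdsWithin_le_nhds
    refine squeeze_zero_norm' ?_ h3
    filter_upwards [self_mem_nhdsWithin, (gt_mem_nhds (one_pos : (0:ℝ) < 1)).filter_mono
      nhdsWithin_le_nhds] with δ hδ0 hδ1
    have hδ : 0 < δ := hδ0
    have h4 : ‖∫ t : ℝ, F t * Complex.exp (-(-η + t * Complex.I) * Complex.log (δ : ℂ))‖ ≤ I0 := by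
      refine (norm_integral_le_integral_norm _).trans ?_
      refine integral_mono_of_nonneg (Eventually.of_forall fun t => norm_nonneg _) hFi.norm ?_
      refine Eventually.of_forall fun t => ?_
      simp only
      rw [norm_mul]
      refine mul_le_of_le_one_right (norm_nonneg _) ?_
      rw [Complex.norm_exp, Real.exp_le_one_iff, ← Complex.ofReal_log hδ.le]
      have e1 : (-(-(η : ℂ) + t * Complex.I) * ((Real.log δ : ℝ) : ℂ)).re = η * Real.log δ := by
        simp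
      rw [e1]
      have := Real.log_nonpos hδ.le hδ1.le
      nlinarith
    simp only [hR]
    refine (norm_add_le _ _).trans ?_
    rw [norm_mul, norm_mul, norm_mul, norm_neg, Complex.norm_real, Real.norm_eq_abs, abs_of_pos hδ]
    have e2 : ‖(1 / (2 * Real.pi) : ℂ)‖ = 1 / (2 * Real.pi) := by
      have : (1 / (2 * Real.pi) : ℂ) = ((1 / (2 * Real.pi) : ℝ) : ℂ) := by push_cast; rfl
      rw [this, Complex.norm_real, Real.norm_eq_abs, abs_of_pos (by positivity)]
    rw [e2, ← mul_add]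
    refine mul_le_mul_of_nonneg_left ?_ hδ.le
    have := mul_le_mul_of_nonneg_left h4 (by positivity : (0:ℝ) ≤ 1 / (2 * Real.pi))
    linarith
  have h5 := h2.const_add (G 1)
  rw [add_zero] at h5
  refine h5.congr' ?_
  filter_upwards [self_mem_nhdsWithin] with δ hδ
  exact (h1 δ hδ).symm

/-- `δ ^ (-iA)` has no limit unless `A = 0` -/
theorem A_zero {A : ℝ} {L : ℂ} (hL : L ≠ 0) (h : Tendsto (fun δ : ℝ =>
    Complex.exp (-(Complex.I * ((A * Real.log δ : ℝ) : ℂ)))) (𝓝[>] 0) (𝓝 L)) : A = 0 := by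
  by_contra hA
  set r : ℝ := Real.exp (Real.pi / A) with hr
  have hr0 : 0 < r := Real.exp_pos _
  have h1 : Tendsto (fun δ : ℝ => r * δ) (𝓝[>] 0) (𝓝[>] 0) := by
    rw [tendsto_nhdsWithin_iff]
    constructor
    · have : Tendsto (fun δ : ℝ => r * δ) (𝓝 0) (𝓝 (r * 0)) := by
        apply Continuous.tendsto
        fun_prop
      rw [mul_zero] at this
      exact this.mono_left nhdsWithin_le_nhds
    · filter_upwards [self_mem_nhdsWithin] with δ hδ
      exact mul_pos hr0 hδ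
  have h2 := h.comp h1
  have h3 : Tendsto (fun δ : ℝ =>
    -Complex.exp (-(Complex.I * ((A * Real.log δ : ℝ) : ℂ)))) (𝓝[>] 0) (𝓝 L) := by
    refine h2.congr' ?_
    filter_upwards [self_mem_nhdsWithin] with δ hδ
    have hδ0 : (0 : ℝ) < δ := hδ
    simp only [Function.comp]
    rw [Real.log_mul hr0.ne' hδ0.ne', hr, Real.log_exp]
    have e1 : -(Complex.I * ((A * (Real.pi / A + Real.log δ) : ℝ) : ℂ)) =
        -(Complex.I * ((A * Real.log δ : ℝ) : ℂ)) + -(Real.pi * Complex.I) := by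
      have : (A : ℂ) ≠ 0 := by exact_mod_cast hA
      push_cast
      field_simp
      ring
    rw [e1, Complex.exp_add, Complex.exp_neg (Real.pi * Complex.I), Complex.exp_pi_mul_I]
    norm_num
  have h4 := tendsto_nhds_unique h3 h.neg
  exact hL (self_eq_neg.1 h4)

theorem Pn_zero {A c y : ℝ} {n : ℕ} (h : c + Real.log n - Real.log y ≠ 0) : Pn A c y n = 0 := by
  unfold Pn
  rw [if_neg h, mul_zero]

/-- the value of the limit at `y = m e ^ c` -/
theorem MM_eq (a : ℕ → ℂ) {η : ℝ} (hη : 0 < η) (c A : ℝ) {m : ℕ} (hm : 1 ≤ m) :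
    MM a η c A (m * Real.exp c) = (starRingEnd ℂ) (a m) * (((m : ℝ) ^ (-1 - η) : ℝ) : ℂ) *
      Pn A c (m * Real.exp c) m := by
  unfold MM
  refine tsum_eq_single m ?_
  intro n hn
  have hm0 : (0 : ℝ) < m := by exact_mod_cast hm
  rcases Nat.eq_zero_or_pos n with h0 | h0
  · subst h0
    have e1 : (((0 : ℕ) : ℝ)) ^ (-1 - η) = 0 := by
      rw [Nat.cast_zero, Real.zero_rpow]
      linarith
    rw [e1, Complex.ofReal_zero, mul_zero, zero_mul]
  · have hn0 : (0 : ℝ) < n := by exact_mod_cast h0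
    rw [Pn_zero, mul_zero]
    intro h
    apply hn
    rw [Real.log_mul hm0.ne' (Real.exp_pos c).ne', Real.log_exp] at h
    have h1 : Real.log n = Real.log m := by linarith
    have h2 := Real.log_injOn_pos (Set.mem_Ioi.2 hn0) (Set.mem_Ioi.2 hm0) h1
    exact_mod_cast h2

theorem taskT2 : TaskT2 := by
  intro hLIM hMB a h1 hr G hG hPG hAs hG1
  have hη : (0 : ℝ) < 1 / 2 := by norm_num
  have hη1 : (1 / 2 : ℝ) < 1 := by norm_num
  obtain ⟨K, c, A, C, T, hA⟩ := hAs (1 / 2) hη hη1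
  have hK : K ≠ 0 := hA.1
  have hT : 0 ≤ T := le_trans zero_le_one hA.2.1
  have hML : ∀ y : ℝ, 0 < y → Tendsto (fun δ : ℝ =>
      Complex.exp (-(Complex.I * ((A * Real.log δ : ℝ) : ℂ))) *
      ((δ : ℂ) * fz a (δ + y * Complex.I))) (𝓝[>] 0) (𝓝 (LL a (1 / 2) K c A y)) := by
    intro y hy
    exact main_lim hr hη hT hy (hLIM a hr G hG hPG hMB 1 (1 / 2) K c A C T le_rfl hη hη1
      (by norm_num) hA y hy)
  have hpole : Tendsto (fun δ : ℝ => (δ : ℂ) * fz a δ) (𝓝[>] 0) (𝓝 (G 1)) :=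
    pole_lim hη (fun z hz => hMB a hr G hG hPG (1 / 2) hη hη1 z hz)
  have h2pi : (0 : ℝ) < 2 * Real.pi := by positivity
  -- the limit at `2 π`
  have hpole2 : Tendsto (fun δ : ℝ => (δ : ℂ) * fz a (δ + ((2 * Real.pi : ℝ) : ℂ) * Complex.I))
      (𝓝[>] 0) (𝓝 (G 1)) := by
    refine hpole.congr fun δ => ?_
    have := fz_period a (δ : ℂ)
    push_cast
    rw [this]
  have hM2 := hML (2 * Real.pi) h2pi
  have hL0 : LL a (1 / 2) K c A (2 * Real.pi) ≠ 0 := by
    have e1 := hM2.norm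
    have e2 := hpole2.norm
    have e3 : ‖LL a (1 / 2) K c A (2 * Real.pi)‖ = ‖G 1‖ := by
      refine tendsto_nhds_unique e1 (e2.congr fun δ => ?_)
      rw [norm_mul (Complex.exp _), norm_expNI, one_mul]
    intro h
    rw [h, norm_zero] at e3
    exact hG1 (norm_eq_zero.1 e3.symm)
  -- `A = 0`
  have hAz : A = 0 := by
    have h3 := hM2.div hpole2 hG1
    have h4 : Tendsto (fun δ : ℝ => Complex.exp (-(Complex.I * ((A * Real.log δ : ℝ) : ℂ))))
        (𝓝[>] 0) (𝓝 (LL a (1 / 2) K c A (2 * Real.pi) / G 1)) := by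
      refine h3.congr' ?_
      filter_upwards [hpole2.eventually_ne hG1] with δ hδ
      simp only [Pi.div_apply]
      rw [mul_div_assoc, div_self hδ, mul_one]
    exact A_zero (div_ne_zero hL0 hG1) h4
  -- the period
  obtain ⟨q, hq, haq, hqc⟩ : ∃ q : ℕ, 1 ≤ q ∧ a q ≠ 0 ∧ c + Real.log q - Real.log (2 * Real.pi) = 0 := by
    by_contra hcon
    push Not at hcon
    apply hL0
    have : MM a (1 / 2) c A (2 * Real.pi) = 0 := by
      unfold MM
      refine (tsum_congr (fun n => ?_)).trans tsum_zero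
      rcases Nat.eq_zero_or_pos n with h0 | h0
      · subst h0
        have e1 : (((0 : ℕ) : ℝ)) ^ (-1 - (1 / 2 : ℝ)) = 0 := by
          rw [Nat.cast_zero, Real.zero_rpow]
          norm_num
        rw [e1, Complex.ofReal_zero, mul_zero, zero_mul]
      · by_cases han : a n = 0
        · rw [han, map_zero, zero_mul, zero_mul]
        · rw [Pn_zero (hcon n h0 han), mul_zero]
    unfold LL
    rw [this, mul_zero]
  have hq0 : (0 : ℝ) < q := by exact_mod_cast hq
  have hper : 2 * Real.pi = q * Real.exp c := by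
    have h3 : Real.log (2 * Real.pi) = Real.log (q * Real.exp c) := by
      rw [Real.log_mul hq0.ne' (Real.exp_pos c).ne', Real.log_exp]
      linarith
    exact Real.log_injOn_pos (Set.mem_Ioi.2 h2pi) (Set.mem_Ioi.2 (mul_pos hq0 (Real.exp_pos c))) h3
  -- values of the limit
  subst hAz
  have hval : ∀ m : ℕ, 1 ≤ m → LL a (1 / 2) K c 0 (m * Real.exp c) =
      (K / (2 * Real.pi)) * Complex.exp (Complex.I * (((1 / 2 : ℝ) * (Real.pi / 2) : ℝ) : ℂ)) *
        ((Real.exp (c * (3 / 2)) : ℝ) : ℂ) * HH 0 0 * (starRingEnd ℂ) (a m) := by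
    intro m hm
    have hm0 : (0 : ℝ) < m := by exact_mod_cast hm
    unfold LL
    rw [MM_eq a hη c 0 hm]
    unfold Pn
    have e1 : c + Real.log m - Real.log (m * Real.exp c) = 0 := by
      rw [Real.log_mul hm0.ne' (Real.exp_pos c).ne', Real.log_exp]
      ring
    rw [if_pos e1]
    have e2 : (((m : ℝ) * Real.exp c) ^ (1 / 2 : ℝ)) * ((m : ℝ) ^ (-1 - (1 / 2 : ℝ))) *
        (m * Real.exp c) = Real.exp (c * (3 / 2)) := by
      have e3 : Real.exp (c * (3 / 2)) = (Real.exp c) ^ (3 / 2 : ℝ) := by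
        rw [← Real.exp_mul]
      have e4 : (Real.exp c) ^ (3 / 2 : ℝ) = (Real.exp c) ^ (1 / 2 : ℝ) * Real.exp c := by
        rw [show (3 / 2 : ℝ) = 1 / 2 + 1 by norm_num, Real.rpow_add (Real.exp_pos c), Real.rpow_one]
      have e5 : (m : ℝ) ^ (1 / 2 : ℝ) * (m : ℝ) ^ (-1 - (1 / 2 : ℝ)) * m = 1 := by
        rw [← Real.rpow_add hm0, ← Real.rpow_add_one hm0.ne']
        norm_num
      rw [Real.mul_rpow hm0.le (Real.exp_pos c).le, e3, e4]
      calc (m : ℝ) ^ (1 / 2 : ℝ) * Real.exp c ^ (1 / 2 : ℝ) * (m : ℝ) ^ (-1 - (1 / 2 : ℝ)) *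
            (m * Real.exp c) = ((m : ℝ) ^ (1 / 2 : ℝ) * (m : ℝ) ^ (-1 - (1 / 2 : ℝ)) * m) *
              (Real.exp c ^ (1 / 2 : ℝ) * Real.exp c) := by ring
        _ = _ := by rw [e5, one_mul]
    rw [← e2]
    push_cast
    simp only [zero_mul, mul_zero, neg_zero, Complex.exp_zero]
    ring
  refine ⟨q, hq, haq, ?_⟩
  intro m hm
  have hm0 : (0 : ℝ) < m := by exact_mod_cast hm
  have hy : 0 < (m : ℝ) * Real.exp c := mul_pos hm0 (Real.exp_pos c)
  have hy2 : 0 < ((m + q : ℕ) : ℝ) * Real.exp c := by positivity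
  have h5 := hML _ hy
  have h6 := hML _ hy2
  have h7 : LL a (1 / 2) K c 0 (((m + q : ℕ) : ℝ) * Real.exp c) =
      LL a (1 / 2) K c 0 ((m : ℝ) * Real.exp c) := by
    refine tendsto_nhds_unique h6 (h5.congr fun δ => ?_)
    congr 2
    have e1 : (δ : ℂ) + ((((m + q : ℕ) : ℝ) * Real.exp c : ℝ) : ℂ) * Complex.I =
        ((δ : ℂ) + (((m : ℝ) * Real.exp c : ℝ) : ℂ) * Complex.I) + 2 * Real.pi * Complex.I := by
      have e2 : (2 * Real.pi : ℂ) = (((q : ℝ) * Real.exp c : ℝ) : ℂ) := by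
        rw [← hper]
        push_cast
        ring
      rw [e2]
      push_cast
      ring
    rw [e1, fz_period]
  rw [hval m hm, hval (m + q) (by omega)] at h7
  have hHH : HH 0 0 ≠ 0 := by
    intro h
    apply hL0
    have h8 : LL a (1 / 2) K c 0 (2 * Real.pi) = 0 := by
      rw [hper, hval q hq, h]
      ring
    exact h8
  have hne : (K / (2 * Real.pi)) * Complex.exp (Complex.I * (((1 / 2 : ℝ) * (Real.pi / 2) : ℝ) : ℂ)) *
        ((Real.exp (c * (3 / 2)) : ℝ) : ℂ) * HH 0 0 ≠ 0 := by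
    have hpi : (Real.pi : ℂ) ≠ 0 := by exact_mod_cast Real.pi_pos.ne'
    refine mul_ne_zero (mul_ne_zero (mul_ne_zero (div_ne_zero hK ?_) (Complex.exp_ne_zero _)) ?_) hHH
    · exact mul_ne_zero two_ne_zero hpi
    · exact_mod_cast (Real.exp_pos _).ne'
  have h9 := mul_left_cancel₀ hne h7
  exact (starRingEnd ℂ).injective h9

end Pool.Agent.H990R4.PO
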